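import Pool.Agent.N999.PS.Half

/-!
Project PS (helper71): the primes of an arithmetic progression (by helper999).
-/

set_option autoImplicit false

namespace Pool.Agent.N71.PS.AP

open Finset Filter Pool.Agent.N71.PS
open scoped Classical

/-- the arithmetic progression -/
def AP (b m : ℕ) : Set ℕ := {p | p % m = b % m}

/-- the primes in `(y, 2 y]` -/
abbrev PQ (y : ℕ) : Finset ℕ := Pool.Agent.H38R2.CG.PP y

theorem mem_PQ {y p : ℕ} (hp : p ∈ PQ y) : p.Prime ∧ y < p := by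
  unfold PQ Pool.Agent.H38R2.CG.PP at hp
  rw [Finset.mem_filter, Finset.mem_Ioc] at hp
  exact ⟨hp.2, hp.1.1⟩

/-- nonprincipal characters -/
theorem nonprin (hSW : S_SW) {q : ℕ} (χ : DirichletCharacter ℂ q) (hq : 1 ≤ q) (hχ : χ ≠ 1) {ε : ℝ}
    (hε : 0 < ε) : ∃ y0 : ℕ, ∀ y ≥ y0, ‖∑ p ∈ PQ y, χ (p : ZMod q)‖ ≤ ε * (PQ y).card := by
  obtain ⟨-, y1, hNB⟩ := Pool.Agent.H38R2.CG.T_NB
  have : NeZero q := ⟨by omega⟩
  have hf1 : 1 < χ.conductor := by
    have h1 : χ.conductor ≠ 0 := DirichletCharacter.conductor_ne_zero χ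
    have h2 : χ.conductor ≠ 1 := fun h =>
      hχ (DirichletCharacter.eq_one_iff_conductor_eq_one.2 h)
    omega
  have hfq : χ.conductor ≤ q := Nat.le_of_dvd hq (DirichletCharacter.conductor_dvd_level χ)
  obtain ⟨y2, hSW⟩ := hSW 1 (9 / 10 * ε) (by positivity)
  obtain ⟨y3, hy3⟩ := eventually_atTop.1
    ((Real.tendsto_log_atTop.comp tendsto_natCast_atTop_atTop).eventually_ge_atTop (q : ℝ))
  refine ⟨y1 + y2 + y3 + q, fun y hy => ?_⟩
  have h2 := (hNB y (by omega)).1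
  have h3 : (χ.conductor : ℝ) ≤ (Real.log y) ^ 1 := by
    rw [pow_one]
    have h4 : (χ.conductor : ℝ) ≤ q := by exact_mod_cast hfq
    exact h4.trans (hy3 y (by omega))
  have h4 := hSW y (by omega) χ.conductor hf1 h3 χ.primitiveCharacter
    (DirichletCharacter.primitiveCharacter_isPrimitive χ)
  have h5 : ∑ p ∈ PQ y, χ (p : ZMod q) =
      ∑ p ∈ PQ y, χ.primitiveCharacter (p : ZMod χ.conductor) := by
    refine Finset.sum_congr rfl fun p hp => ?_
    obtain ⟨h6, h7⟩ := mem_PQ hp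
    exact Pool.Agent.N999.PS.char_prim χ hq h6 (by omega)
  rw [← h5] at h4
  refine h4.trans ?_
  have h8 : 9 / 10 * ε * y / Real.log y = ε * (9 / 10 * y / Real.log y) := by ring
  rw [h8]
  exact mul_le_mul_of_nonneg_left h2 hε.le

/-- the primes of the progression by means of characters -/
theorem indic {m b : ℕ} (hm : 1 ≤ m) (hb : b.Coprime m) (y : ℕ) (f : ℕ → ℂ) :
    haveI : NeZero m := ⟨by omega⟩
    ∑ p ∈ primesIn (AP b m) y, f p = (Nat.totient m : ℂ)⁻¹ *
      ∑ ψ : DirichletCharacter ℂ m, ψ (b : ZMod m)⁻¹ * ∑ p ∈ PQ y, ψ (p : ZMod m) * f p := by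
  haveI : NeZero m := ⟨by omega⟩
  have hu : IsUnit (b : ZMod m) := (ZMod.isUnit_iff_coprime b m).2 hb
  have hφ : (Nat.totient m : ℂ) ≠ 0 := by
    have := Nat.totient_pos.2 hm
    exact_mod_cast this.ne'
  have h1 : ∑ ψ : DirichletCharacter ℂ m, ψ (b : ZMod m)⁻¹ * ∑ p ∈ PQ y, ψ (p : ZMod m) * f p =
      ∑ p ∈ PQ y, (if (b : ZMod m) = (p : ZMod m) then (Nat.totient m : ℂ) else 0) * f p := by
    simp only [Finset.mul_sum]
    rw [Finset.sum_comm]
    refine Finset.sum_congr rfl fun p _ => ?_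
    rw [← DirichletCharacter.sum_char_inv_mul_char_eq ℂ hu (p : ZMod m), Finset.sum_mul]
    refine Finset.sum_congr rfl fun ψ _ => ?_
    ring
  have h2 : primesIn (AP b m) y = (PQ y).filter (fun p : ℕ => (b : ZMod m) = (p : ZMod m)) := by
    ext p
    unfold primesIn PQ Pool.Agent.H38R2.CG.PP
    rw [Finset.mem_filter, Finset.mem_filter, Finset.mem_filter, and_assoc]
    apply and_congr_right
    intro _
    apply and_congr_right
    intro _
    rw [ZMod.natCast_eq_natCast_iff]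
    change p % m = b % m ↔ b % m = p % m
    exact eq_comm
  rw [h1, h2, Finset.sum_filter, Finset.mul_sum]
  refine Finset.sum_congr rfl fun p _ => ?_
  split_ifs
  · rw [← mul_assoc, inv_mul_cancel₀ hφ, one_mul]
  · rw [zero_mul, mul_zero]

/-- the product of characters of coprime moduli -/
noncomputable def prd {m q : ℕ} (ψ : DirichletCharacter ℂ m) (χ : DirichletCharacter ℂ q) :
    DirichletCharacter ℂ (q * m) :=
  (DirichletCharacter.changeLevel (dvd_mul_left m q) ψ) *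
    (DirichletCharacter.changeLevel (dvd_mul_right q m) χ)

theorem prd_apply {m q : ℕ} (ψ : DirichletCharacter ℂ m) (χ : DirichletCharacter ℂ q) {n : ℕ}
    (hn : n.Coprime (q * m)) : prd ψ χ (n : ZMod (q * m)) = ψ (n : ZMod m) * χ (n : ZMod q) := by
  have hc : IsCoprime (n : ℤ) ((q * m : ℕ) : ℤ) := Nat.isCoprime_iff_coprime.2 hn
  have h1 := DirichletCharacter.changeLevel_eq_cast_of_dvd' ψ (dvd_mul_left m q) hc
  have h2 := DirichletCharacter.changeLevel_eq_cast_of_dvd' χ (dvd_mul_right q m) hc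
  rw [Int.cast_natCast, Int.cast_natCast] at h1 h2
  unfold prd
  rw [MulChar.mul_apply, h1, h2]

theorem prd_ne_one {m q : ℕ} (hm : 1 ≤ m) (hq : 1 ≤ q) (hqm : q.Coprime m)
    (ψ : DirichletCharacter ℂ m) (χ : DirichletCharacter ℂ q) (hχ : χ ≠ 1) : prd ψ χ ≠ 1 := by
  intro h
  apply hχ
  haveI : NeZero q := ⟨by omega⟩
  apply MulChar.ext
  intro u
  rw [MulChar.one_apply_coe]
  obtain ⟨n, hn1, hn2⟩ := Nat.chineseRemainder hqm (u : ZMod q).val 1
  have hnq : (n : ZMod q) = u := by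
    have := (ZMod.natCast_eq_natCast_iff _ _ _).2 hn1
    rw [this, ZMod.natCast_zmod_val]
  have hnm : (n : ZMod m) = 1 := by
    have := (ZMod.natCast_eq_natCast_iff _ _ _).2 hn2
    rw [this, Nat.cast_one]
  have hc1 : n.Coprime q := by
    rw [← ZMod.isUnit_iff_coprime, hnq]
    exact u.isUnit
  have hc2 : n.Coprime m := by
    rw [← ZMod.isUnit_iff_coprime, hnm]
    exact isUnit_one
  have hc : n.Coprime (q * m) := Nat.Coprime.mul_right hc1 hc2
  have h1 := prd_apply ψ χ hc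
  rw [h, hnq, hnm, map_one, one_mul] at h1
  rw [← h1]
  have hu : IsUnit (n : ZMod (q * m)) := (ZMod.isUnit_iff_coprime _ _).2 hc
  exact MulChar.one_apply hu

theorem norm_char_le {m : ℕ} (ψ : DirichletCharacter ℂ m) (a : ZMod m) : ‖ψ a‖ ≤ 1 :=
  DirichletCharacter.norm_le_one ψ a

/-- lower bound for the number of the primes -/
theorem ap_low (hSW : S_SW) (m b : ℕ) (hm : 1 ≤ m) (hb : b.Coprime m) :
    ∃ δ : ℝ, 0 < δ ∧ ∃ y0 : ℕ, ∀ y ≥ y0,
      δ * (Pool.Agent.H38R2.CG.PP y).card ≤ (primesIn (AP b m) y).card := by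
  haveI : NeZero m := ⟨by omega⟩
  have hφ0 : 0 < Nat.totient m := Nat.totient_pos.2 hm
  have hφ : (0 : ℝ) < Nat.totient m := by exact_mod_cast hφ0
  have hφ1 : (1 : ℝ) ≤ Nat.totient m := by exact_mod_cast hφ0
  -- the bound of the nonprincipal characters, uniformly
  have hall : ∀ ψ : DirichletCharacter ℂ m, ∃ y0 : ℕ, ∀ y ≥ y0, ψ ≠ 1 →
      ‖∑ p ∈ PQ y, ψ (p : ZMod m)‖ ≤ 1 / (2 * Nat.totient m) * (PQ y).card := by
    intro ψ
    by_cases h : ψ = 1
    · exact ⟨0, fun y _ h' => absurd h h'⟩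
    · obtain ⟨y0, hy0⟩ := nonprin hSW ψ hm h (show 0 < 1 / (2 * (Nat.totient m : ℝ)) by positivity)
      exact ⟨y0, fun y hy _ => hy0 y hy⟩
  choose Y hY using hall
  refine ⟨1 / (2 * Nat.totient m), by positivity, m + ∑ ψ, Y ψ, fun y hy => ?_⟩
  have hym : m ≤ y := by omega
  have hYy : ∀ ψ, Y ψ ≤ y := fun ψ => by
    have := Finset.single_le_sum (f := Y) (fun i _ => Nat.zero_le _) (Finset.mem_univ ψ)
    omega
  have h1 := indic hm hb y (fun _ => 1)
  simp only [mul_one] at h1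
  rw [← Finset.add_sum_erase _ _ (Finset.mem_univ (1 : DirichletCharacter ℂ m))] at h1
  have hu : IsUnit (b : ZMod m) := (ZMod.isUnit_iff_coprime b m).2 hb
  have h2 : (1 : DirichletCharacter ℂ m) (b : ZMod m)⁻¹ = 1 := by
    apply MulChar.one_apply
    obtain ⟨u, hu'⟩ := hu
    rw [← hu', ZMod.inv_coe_unit]
    exact u⁻¹.isUnit
  have h3 : ∑ p ∈ PQ y, (1 : DirichletCharacter ℂ m) (p : ZMod m) = (PQ y).card := by
    rw [Finset.card_eq_sum_ones, Nat.cast_sum]
    refine Finset.sum_congr rfl fun p hp => ?_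
    obtain ⟨h6, h7⟩ := mem_PQ hp
    rw [Nat.cast_one]
    apply MulChar.one_apply
    rw [ZMod.isUnit_iff_coprime]
    exact (Nat.Prime.coprime_iff_not_dvd h6).2 fun h => by
      have := Nat.le_of_dvd hm h
      omega
  rw [h2, h3, one_mul] at h1
  obtain ⟨R, hR⟩ : ∃ R : ℂ, R = ∑ ψ ∈ Finset.univ.erase (1 : DirichletCharacter ℂ m),
    ψ (b : ZMod m)⁻¹ * ∑ p ∈ PQ y, ψ (p : ZMod m) := ⟨_, rfl⟩
  rw [← hR] at h1
  have hcardφ : (Finset.univ : Finset (DirichletCharacter ℂ m)).card = Nat.totient m := by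
    rw [Finset.card_univ, ← Nat.card_eq_fintype_card]
    exact DirichletCharacter.card_eq_totient_of_hasEnoughRootsOfUnity ℂ m
  have h4 : ‖R‖ ≤ 1 / 2 * (PQ y).card := by
    rw [hR]
    refine (norm_sum_le _ _).trans ?_
    have h5 : ∀ ψ ∈ Finset.univ.erase (1 : DirichletCharacter ℂ m),
        ‖ψ (b : ZMod m)⁻¹ * ∑ p ∈ PQ y, ψ (p : ZMod m)‖ ≤
          1 / (2 * Nat.totient m) * (PQ y).card := by
      intro ψ hψ
      rw [norm_mul]
      have h6 := hY ψ y (hYy ψ) (Finset.ne_of_mem_erase hψ)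
      calc ‖ψ (b : ZMod m)⁻¹‖ * ‖∑ p ∈ PQ y, ψ (p : ZMod m)‖ ≤
            1 * (1 / (2 * Nat.totient m) * (PQ y).card) :=
            mul_le_mul (norm_char_le _ _) h6 (norm_nonneg _) zero_le_one
        _ = _ := one_mul _
    refine (Finset.sum_le_sum h5).trans ?_
    rw [Finset.sum_const, nsmul_eq_mul]
    have h7 : ((Finset.univ.erase (1 : DirichletCharacter ℂ m)).card : ℝ) ≤ Nat.totient m := by
      have := Finset.card_le_card (Finset.erase_subset (1 : DirichletCharacter ℂ m) Finset.univ)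
      rw [hcardφ] at this
      exact_mod_cast this
    calc ((Finset.univ.erase (1 : DirichletCharacter ℂ m)).card : ℝ) *
          (1 / (2 * Nat.totient m) * (PQ y).card) ≤
          Nat.totient m * (1 / (2 * Nat.totient m) * (PQ y).card) :=
          mul_le_mul_of_nonneg_right h7 (by positivity)
      _ = _ := by field_simp
  have h8 : ((primesIn (AP b m) y).card : ℂ) = (Nat.totient m : ℂ)⁻¹ * ((PQ y).card + R) := by
    rw [← h1, Finset.card_eq_sum_ones, Nat.cast_sum]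
    simp
  have h9 : ((primesIn (AP b m) y).card : ℝ) = (Nat.totient m : ℝ)⁻¹ * ((PQ y).card + R.re) := by
    have := congrArg Complex.re h8
    have e : (Nat.totient m : ℂ)⁻¹ = (((Nat.totient m : ℝ)⁻¹ : ℝ) : ℂ) := by push_cast; rfl
    rw [e, Complex.re_ofReal_mul, Complex.add_re, Complex.natCast_re, Complex.natCast_re] at this
    exact this
  rw [h9]
  have h10 : -(1 / 2 * ((PQ y).card : ℝ)) ≤ R.re := by
    have := (abs_le.1 ((Complex.abs_re_le_norm R).trans h4)).1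
    exact this
  have h11 : (Nat.totient m : ℝ)⁻¹ * (1 / 2 * ((PQ y).card : ℝ)) ≤
      (Nat.totient m : ℝ)⁻¹ * ((PQ y).card + R.re) :=
    mul_le_mul_of_nonneg_left (by linarith) (by positivity)
  refine le_trans (le_of_eq ?_) h11
  field_simp

/-- oscillation of all characters of coprime moduli -/
theorem ap_osc (hSW : S_SW) (m b : ℕ) (hm : 1 ≤ m) (hb : b.Coprime m) (q : ℕ)
    (χ : DirichletCharacter ℂ q) (hq : 1 ≤ q) (hqm : q.Coprime m) (hχ : χ ≠ 1) :
    ∃ y0 : ℕ, ∀ y ≥ y0, ‖∑ p ∈ primesIn (AP b m) y, χ (p : ZMod q)‖ ≤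
      1 / 2 * (primesIn (AP b m) y).card := by
  haveI : NeZero m := ⟨by omega⟩
  have hφ0 : 0 < Nat.totient m := Nat.totient_pos.2 hm
  have hφ : (0 : ℝ) < Nat.totient m := by exact_mod_cast hφ0
  obtain ⟨δ, hδ, y1, hlow⟩ := ap_low hSW m b hm hb
  have hqm1 : 1 ≤ q * m := Nat.mul_pos hq hm
  have hall : ∀ ψ : DirichletCharacter ℂ m, ∃ y0 : ℕ, ∀ y ≥ y0,
      ‖∑ p ∈ PQ y, prd ψ χ (p : ZMod (q * m))‖ ≤ δ / 2 * (PQ y).card := by
    intro ψ
    exact nonprin hSW (prd ψ χ) hqm1 (prd_ne_one hm hq hqm ψ χ hχ) (by positivity)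
  choose Y hY using hall
  refine ⟨y1 + q * m + ∑ ψ, Y ψ, fun y hy => ?_⟩
  have hYy : ∀ ψ, Y ψ ≤ y := fun ψ => by
    have := Finset.single_le_sum (f := Y) (fun i _ => Nat.zero_le _) (Finset.mem_univ ψ)
    omega
  have hcardφ : (Finset.univ : Finset (DirichletCharacter ℂ m)).card = Nat.totient m := by
    rw [Finset.card_univ, ← Nat.card_eq_fintype_card]
    exact DirichletCharacter.card_eq_totient_of_hasEnoughRootsOfUnity ℂ m
  rw [indic hm hb y (fun p => χ (p : ZMod q)), norm_mul, norm_inv, Complex.norm_natCast]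
  have h1 : ‖∑ ψ : DirichletCharacter ℂ m, ψ (b : ZMod m)⁻¹ *
      ∑ p ∈ PQ y, ψ (p : ZMod m) * χ (p : ZMod q)‖ ≤ Nat.totient m * (δ / 2 * (PQ y).card) := by
    refine (norm_sum_le _ _).trans ?_
    have h5 : ∀ ψ ∈ (Finset.univ : Finset (DirichletCharacter ℂ m)),
        ‖ψ (b : ZMod m)⁻¹ * ∑ p ∈ PQ y, ψ (p : ZMod m) * χ (p : ZMod q)‖ ≤
          δ / 2 * (PQ y).card := by
      intro ψ _
      rw [norm_mul]
      have e1 : ∑ p ∈ PQ y, ψ (p : ZMod m) * χ (p : ZMod q) =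
          ∑ p ∈ PQ y, prd ψ χ (p : ZMod (q * m)) := by
        refine Finset.sum_congr rfl fun p hp => ?_
        obtain ⟨h6, h7⟩ := mem_PQ hp
        rw [prd_apply]
        exact (Nat.Prime.coprime_iff_not_dvd h6).2 fun h => by
          have := Nat.le_of_dvd hqm1 h
          omega
      rw [e1]
      calc ‖ψ (b : ZMod m)⁻¹‖ * ‖∑ p ∈ PQ y, prd ψ χ (p : ZMod (q * m))‖ ≤
            1 * (δ / 2 * (PQ y).card) :=
            mul_le_mul (norm_char_le _ _) (hY ψ y (hYy ψ)) (norm_nonneg _) zero_le_one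
        _ = _ := one_mul _
    refine (Finset.sum_le_sum h5).trans ?_
    rw [Finset.sum_const, nsmul_eq_mul, hcardφ]
  calc (Nat.totient m : ℝ)⁻¹ * ‖∑ ψ : DirichletCharacter ℂ m, ψ (b : ZMod m)⁻¹ *
      ∑ p ∈ PQ y, ψ (p : ZMod m) * χ (p : ZMod q)‖ ≤
      (Nat.totient m : ℝ)⁻¹ * (Nat.totient m * (δ / 2 * (PQ y).card)) :=
        mul_le_mul_of_nonneg_left h1 (by positivity)
    _ = 1 / 2 * (δ * (PQ y).card) := by field_simp
    _ ≤ 1 / 2 * (primesIn (AP b m) y).card :=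
        mul_le_mul_of_nonneg_left (hlow y (by omega)) (by norm_num)

end Pool.Agent.N71.PS.AP
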