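import Pool.Agent.N71.PS.DStubs2
import Pool.Agent.N999.PS.AP0

/-!
Project PS (helper71): the primes of an arithmetic progression oscillate (by helper999).
-/

set_option autoImplicit false

namespace Pool.Agent.N71.PS.AP

open Finset Filter Pool.Agent.N71.PS

/-- the primes of an arithmetic progression modulo `m` oscillate with respect to all
characters of modulus coprime to `m` -/
theorem ap_rosc (hSW : S_SW) (m b : ℕ) (hm : 1 ≤ m) (hb : b.Coprime m) : ROsc (AP b m) m := by
  intro q χ hq hqm _ hχ
  obtain ⟨y0, hy0⟩ := ap_osc hSW m b hm hb q χ hq hqm hχ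
  exact ⟨1 / 2, by norm_num, y0, hy0⟩

end Pool.Agent.N71.PS.AP
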