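import Pool.Agent.N71.PS.Tasks
import Pool.Agent.H38R2.CG.NB

/-!
Project PS (helper71): sets with more than half of the primes (S_HALF, by helper999).
-/

set_option autoImplicit false

namespace Pool.Agent.N999.PS

open Finset Filter Pool.Agent.H38R2.CG Pool.Agent.N71.PS
open scoped Classical

theorem primesIn_sub (P : Set ℕ) (y : ℕ) : primesIn P y ⊆ Pool.Agent.H38R2.CG.PP y := by
  intro p hp
  unfold primesIn at hp
  rw [Finset.mem_filter] at hp
  unfold Pool.Agent.H38R2.CG.PP
  rw [Finset.mem_filter]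
  exact ⟨hp.1, hp.2.1⟩

/-- a sum over a subset of unimodular numbers -/
theorem sub_bound {α : Type} (s t : Finset α) (hst : s ⊆ t) (f : α → ℂ) (hf : ∀ i, ‖f i‖ ≤ 1) :
    ‖∑ i ∈ s, f i‖ ≤ ((t.card : ℝ) + ‖∑ i ∈ t, f i‖) / 2 := by
  obtain ⟨S, hS⟩ : ∃ S, S = ∑ i ∈ s, f i := ⟨_, rfl⟩
  rw [← hS]
  rcases eq_or_ne S 0 with h0 | h0
  · rw [h0, norm_zero]
    positivity
  · have hn : (0 : ℝ) < ‖S‖ := norm_pos_iff.2 h0
    obtain ⟨w, hw⟩ : ∃ w : ℂ, w = (starRingEnd ℂ) S / ‖S‖ := ⟨_, rfl⟩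
    have hw1 : ‖w‖ = 1 := by
      rw [hw, norm_div, RCLike.norm_conj, Complex.norm_real, norm_norm, div_self hn.ne']
    have hwS : w * S = (‖S‖ : ℂ) := by
      have hn' : ((‖S‖ : ℝ) : ℂ) ≠ 0 := by exact_mod_cast hn.ne'
      rw [hw, div_mul_eq_mul_div, div_eq_iff hn', mul_comm, Complex.mul_conj, Complex.normSq_eq_norm_sq]
      push_cast
      ring
    have h1 : ‖S‖ = ∑ i ∈ s, (w * f i).re := by
      rw [← Complex.re_sum, ← Finset.mul_sum, ← hS, hwS, Complex.ofReal_re]
    have hg : ∀ i, |(w * f i).re| ≤ 1 := by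
      intro i
      refine (Complex.abs_re_le_norm _).trans ?_
      rw [norm_mul, hw1, one_mul]
      exact hf i
    have h2 : ∑ i ∈ s, (w * f i).re ≤ ∑ i ∈ t, (|(w * f i).re| + (w * f i).re) / 2 := by
      calc ∑ i ∈ s, (w * f i).re ≤ ∑ i ∈ s, (|(w * f i).re| + (w * f i).re) / 2 := by
            refine Finset.sum_le_sum fun i _ => ?_
            have := le_abs_self (w * f i).re
            linarith
        _ ≤ _ := by
            refine Finset.sum_le_sum_of_subset_of_nonneg hst fun i _ _ => ?_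
            have := neg_abs_le (w * f i).re
            linarith
    have h3 : ∑ i ∈ t, (|(w * f i).re| + (w * f i).re) / 2 ≤
        ((t.card : ℝ) + ‖∑ i ∈ t, f i‖) / 2 := by
      rw [← Finset.sum_div, Finset.sum_add_distrib]
      have h4 : ∑ i ∈ t, |(w * f i).re| ≤ t.card := by
        calc ∑ i ∈ t, |(w * f i).re| ≤ ∑ _i ∈ t, (1 : ℝ) := Finset.sum_le_sum fun i _ => hg i
          _ = t.card := by simp
      have h5 : ∑ i ∈ t, (w * f i).re ≤ ‖∑ i ∈ t, f i‖ := by
        rw [← Complex.re_sum, ← Finset.mul_sum]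
        refine (Complex.re_le_norm _).trans ?_
        rw [norm_mul, hw1, one_mul]
      linarith
    rw [h1]
    exact h2.trans h3

/-- the value of a character at a large prime -/
theorem char_prim {q : ℕ} (χ : DirichletCharacter ℂ q) (hq : 1 ≤ q) {p : ℕ} (hp : p.Prime)
    (hqp : q < p) : χ (p : ZMod q) = χ.primitiveCharacter (p : ZMod χ.conductor) := by
  have hcop : IsCoprime (p : ℤ) (q : ℤ) := by
    rw [Nat.isCoprime_iff_coprime]
    exact (Nat.Prime.coprime_iff_not_dvd hp).2 fun h =>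
      absurd (Nat.le_of_dvd hq h) (by omega)
  have := χ.primitiveCharacter_apply_of_isCoprime hcop
  push_cast at this
  exact this.symm

theorem half (hSW : S_SW) : S_HALF := by
  intro P δ hδ hP
  obtain ⟨y0, hP⟩ := hP
  obtain ⟨-, y1, hNB⟩ := Pool.Agent.H38R2.CG.T_NB
  refine ⟨⟨9 / 20, by norm_num, max y0 y1, fun y hy => ?_⟩, fun q χ hq hχ => ?_⟩
  · have h1 := hP y ((le_max_left _ _).trans hy)
    have h2 := (hNB y ((le_max_right _ _).trans hy)).1
    have h3 : (1 / 2 : ℝ) * (Pool.Agent.H38R2.CG.PP y).card ≤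
        (1 / 2 + δ) * (Pool.Agent.H38R2.CG.PP y).card :=
      mul_le_mul_of_nonneg_right (by linarith) (Nat.cast_nonneg _)
    have h4 : (9 / 20 : ℝ) * y / Real.log y = 1 / 2 * (9 / 10 * y / Real.log y) := by ring
    rw [h4]
    linarith
  · have : NeZero q := ⟨by omega⟩
    have hf1 : 1 < χ.conductor := by
      have h1 : χ.conductor ≠ 0 := DirichletCharacter.conductor_ne_zero χ
      have h2 : χ.conductor ≠ 1 := fun h =>
        hχ (DirichletCharacter.eq_one_iff_conductor_eq_one.2 h)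
      omega
    have hfq : χ.conductor ≤ q := Nat.le_of_dvd hq (DirichletCharacter.conductor_dvd_level χ)
    obtain ⟨y2, hSW⟩ := hSW 1 (9 * δ / 10) (by positivity)
    obtain ⟨y3, hy3⟩ := eventually_atTop.1
      ((Real.tendsto_log_atTop.comp tendsto_natCast_atTop_atTop).eventually_ge_atTop (q : ℝ))
    refine ⟨(1 / 2 + δ / 2) / (1 / 2 + δ), ?_, max (max y0 y1) (max y2 (max y3 q)),
      fun y hy => ?_⟩
    · rw [div_lt_one (by positivity)]
      linarith
    have hy0 : y0 ≤ y := ((le_max_left _ _).trans (le_max_left _ _)).trans hy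
    have hy1 : y1 ≤ y := ((le_max_right _ _).trans (le_max_left _ _)).trans hy
    have hy2 : y2 ≤ y := ((le_max_left _ _).trans (le_max_right _ _)).trans hy
    have hy3' : y3 ≤ y :=
      (((le_max_left _ _).trans (le_max_right _ _)).trans (le_max_right _ _)).trans hy
    have hyq : q ≤ y :=
      (((le_max_right _ _).trans (le_max_right _ _)).trans (le_max_right _ _)).trans hy
    have h1 := hP y hy0
    have h2 := (hNB y hy1).1
    have h3 : (χ.conductor : ℝ) ≤ (Real.log y) ^ 1 := by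
      rw [pow_one]
      have h4 : (χ.conductor : ℝ) ≤ q := by exact_mod_cast hfq
      exact h4.trans (hy3 y hy3')
    have h4 := hSW y hy2 χ.conductor hf1 h3 χ.primitiveCharacter
      (DirichletCharacter.primitiveCharacter_isPrimitive χ)
    have h5 : ∑ p ∈ Pool.Agent.H38R2.CG.PP y, χ (p : ZMod q) =
        ∑ p ∈ Pool.Agent.H38R2.CG.PP y, χ.primitiveCharacter (p : ZMod χ.conductor) := by
      refine Finset.sum_congr rfl fun p hp => ?_
      unfold Pool.Agent.H38R2.CG.PP at hp
      rw [Finset.mem_filter, Finset.mem_Ioc] at hp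
      exact char_prim χ hq hp.2 (hyq.trans_lt hp.1.1)
    rw [← h5] at h4
    have h6 := sub_bound (primesIn P y) (Pool.Agent.H38R2.CG.PP y) (primesIn_sub P y)
      (fun p => χ (p : ZMod q)) (fun p => DirichletCharacter.norm_le_one χ _)
    obtain ⟨N, hN⟩ : ∃ N : ℝ, N = (Pool.Agent.H38R2.CG.PP y).card := ⟨_, rfl⟩
    rw [← hN] at h1 h2 h6
    have h7 : 9 * δ / 10 * y / Real.log y ≤ δ * N := by
      have h8 : 9 * δ / 10 * y / Real.log y = δ * (9 / 10 * y / Real.log y) := by ring
      rw [h8]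
      exact mul_le_mul_of_nonneg_left h2 hδ.le
    have h8 : ‖∑ p ∈ primesIn P y, χ (p : ZMod q)‖ ≤ (1 / 2 + δ / 2) * N := by
      refine h6.trans ?_
      have := h4.trans h7
      linarith
    rw [div_mul_eq_mul_div, le_div_iff₀ (by positivity)]
    calc ‖∑ p ∈ primesIn P y, χ (p : ZMod q)‖ * (1 / 2 + δ) ≤
          (1 / 2 + δ / 2) * N * (1 / 2 + δ) := mul_le_mul_of_nonneg_right h8 (by positivity)
      _ = (1 / 2 + δ / 2) * ((1 / 2 + δ) * N) := by ring
      _ ≤ (1 / 2 + δ / 2) * (primesIn P y).card :=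
        mul_le_mul_of_nonneg_left h1 (by positivity)

end Pool.Agent.N999.PS
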